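import Pool.Agent.R390.Tensor

/-!
# The order of vanishing formula at `p = 2` for the abelian varieties `X_0(11) ⊗ M`

`E = X_0(11)`, `m` is squarefree, prime to `2` and to `11`, and `a_l(E)` is odd for all primes `l` that
divide `m`.  `M = ℤ^g` (`g` arbitrary) with an action `ρ` of `Gal(ℚ(ζ_m)/ℚ) = (ℤ/m)ˣ` through a 2-group,
and `A = E ⊗ M` is the twist of `E^g` over `ℚ`, an abelian variety of dimension `g`.  For the polarized
motive `h¹(A)(1)` over `ℚ` and `p = 2` the formula of the problem holds, both sides being zero: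

* the `L`-function of `A` (without the Euler factors at the primes that divide `11 m`, which are finite
  and not zero at `s = 1`) has an entire continuation, which is not zero at `s = 1`;
* `H⁰(ℚ, V_2 A) = 0` and `H¹_f(ℚ, V_2 A) = 0`.

`H¹_f(ℚ, V_2 A)` is the group of the classes of the continuous cocycles with values in
`V_2 A = T_2 A ⊗ ℚ_2` whose restriction to the decomposition group of every prime number is in the
image of the Kummer map, which is the condition of Bloch and Kato.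

The central values and the 2-primary part of `Ш(A / ℚ)` are from the file `TensorTwoPart` of problem
`MP_dfae13_nt`.
-/

set_option autoImplicit false

namespace Pool.Agent.Results.MP_ec4e4b_nt.ArtinTwistsOfX011

open Pool.Agent.Results.MP_dfae13_nt.TensorTwoPart Pool.Agent.R390.Tensor
open Pool.Agent.TH841.SH.D (Gal)

/-- **Main theorem.** `X011` is the equation `y² + y = x³ - x² - 10 x - 20` of `X_0(11)`, with
discriminant `-11^5`; `pts X011 (ZMod l)` is the number of the affine points modulo `l`, so that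
`a_l = l - pts X011 (ZMod l)`; `κ` is the cyclotomic character of the absolute Galois group of `ℚ`
modulo `m`; `P ρ X011 p T = det (1 - a_p T ρ(p) + p T² ρ(p)²)` is the Euler polynomial of `A` at `p`. -/
theorem result (m : ℕ) [NeZero m] (hsq : Squarefree m)
    (hm : ∀ l : ℕ, l.Prime → l ∣ m → ¬ (l : ℤ) ∣ 2 * X011.Δ ∧ Odd ((l : ℤ) - pts X011 (ZMod l)))
    (g n : ℕ) (ρ : (ZMod m)ˣ →* GL (Fin g) ℤ) (hρ : ∀ u, ρ u ^ (2 ^ n) = 1)
    (κ : Gal ℚ →* (ZMod m)ˣ)
    (hκ : ∀ (σ : Gal ℚ) (ζ : AlgebraicClosure ℚ), ζ ^ m = 1 → σ ζ = ζ ^ ((κ σ : ZMod m)).val) :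
    (∃ L : ℂ → ℂ, Differentiable ℂ L ∧
      (∀ s : ℂ, 3 / 2 < s.re → HasProd (fun p : Nat.Primes =>
        if ((p : ℕ) : ℤ) ∣ m * X011.Δ then 1 else (P ρ X011 p (((p : ℕ) : ℂ) ^ (-s)))⁻¹) (L s)) ∧
      analyticOrderAt L 1 = 0) ∧
    NoInvariants X011 (ρ.comp κ) ∧ SelmerZero X011 (ρ.comp κ) := by
  obtain ⟨h1, _, h3, L, h4, h5, h6, _⟩ :=
    Pool.Agent.Results.MP_dfae13_nt.TensorTwoPart.result X011 m hsq hm g n ρ hρ (Or.inl rfl) κ hκ
  have hfin : Finite (ptsA X011 (ρ.comp κ)) := h1.1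
  exact ⟨⟨L, h4, h5, h6⟩, alg_side (Set.toFinite _) h3⟩

end Pool.Agent.Results.MP_ec4e4b_nt.ArtinTwistsOfX011
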