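import Pool.Agent.R390.TwoCM
import Pool.Agent.R390.InfPrimes

/-!
# The order of vanishing formula at `p = 2` for abelian varieties over `ℚ(i)` of dimension
# `2 ^ (k - 2)` with complex multiplication by the `2 ^ k`-th roots of unity

`K = ℚ(i)`, `E : y² = x³ - x`, `χ` is a character of order `2 ^ k`, `k ≥ 3`, of the ideals of `ℤ[i]`
prime to the primes `π 0, …, π (m - 1)`, the product of characters `lam j` of order `2 ^ k`
modulo `π j`, and `a` is the character of the absolute Galois group of `K` that corresponds to `χ`.
The abelian variety `A` over `K` of dimension `2 ^ (k - 2)` is the twist of `E ⊗ ℤ[ζ]`, `ζ` of order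
`2 ^ k`, by `a`; it has complex multiplication by `ℤ[ζ]`.  Under explicit conditions on the `π j` (which
say that some graph made from the quadratic residue symbols of the `π j` has an odd number of
spanning trees; for `m = 1` they are congruences, satisfied by infinitely many primes) the formula of
the problem holds for the motive `M = h¹(A)(1)` over `K` and `p = 2`, both sides being zero:
`L(s, M) = L(A / K, s + 1)` is entire and not zero at `s = 0`, and `H⁰(K, V_2 A)` and the Bloch–Kato
Selmer group `H¹_f(K, V_2 A)` are zero.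

`H¹_f(K, V_2 A)` is the group of the classes of the continuous cocycles with values in
`V_2 A = T_2 A ⊗ ℚ_2` whose restriction to the decomposition group of every finite place is in the
image of the Kummer map (`SelmerZero`), which is the condition of Bloch and Kato.

The central values and the 2-primary part of `Ш(A / K)` are from the file `TwoPartTwists` of problem
`MP_dfae13_nt`; that there are infinitely many primes `q` is proved with the density theorem of
Chebotarev (library of helper401).
-/

set_option autoImplicit false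

namespace Pool.Agent.Results.MP_ec4e4b_nt.CyclotomicComplexMultiplication

open Pool.Agent.Y715.St Pool.Agent.R390.TwoCM

/-- The conditions on the primes `π j` (`j < m`) of `ℤ[i]`: they are different, congruent to `1`
modulo `4`, their norms are congruent to `1` modulo `2 ^ (k + 2)`, their product is not congruent to `1`
modulo `4 (1 + i)`, and in every factorization `d d'` of the product in which each of `d`, `d'` is a
square modulo the other, one of `d`, `d'` is a unit. -/
structure Good (k : ℕ) {m : ℕ} (π : Fin m → GaussianInt) : Prop where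
  prime : ∀ j, Prime (π j)
  inj : Function.Injective π
  four : ∀ j, (4 : GaussianInt) ∣ π j - 1
  norm : ∀ j, (2 : ℤ) ^ (k + 2) ∣ (π j).norm - 1
  split : ∀ d d' : GaussianInt, d * d' = ∏ j, π j → (∃ x, d' ∣ d - x ^ 2) →
    (∃ x, d ∣ d' - x ^ 2) → IsUnit d ∨ IsUnit d'
  odd : ¬ (4 * ⟨1, 1⟩ : GaussianInt) ∣ (∏ j, π j) - 1

/-- For one prime the last condition but one is empty. -/
theorem good_one {k : ℕ} {q : GaussianInt} (h1 : Prime q) (h2 : (4 : GaussianInt) ∣ q - 1)
    (h3 : (2 : ℤ) ^ (k + 2) ∣ q.norm - 1) (h4 : ¬ (4 * ⟨1, 1⟩ : GaussianInt) ∣ q - 1) :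
    Good k (fun _ : Fin 1 => q) where
  prime _ := h1
  inj _ _ _ := Subsingleton.elim _ _
  four _ := h2
  norm _ := h3
  split d d' h _ _ := by
    rw [Fin.prod_univ_one] at h
    exact h1.irreducible.isUnit_or_isUnit h.symm
  odd := by
    rw [Fin.prod_univ_one]
    exact h4

/-- **Main theorem.**  Let `k ≥ 3`.

* There are infinitely many primes `q` of `ℤ[i]` for which the family consisting of `q` alone satisfies
  the conditions `Good`.
* Let `π j` (`j < m`) satisfy `Good`, let `χ` be a product of characters of order `2 ^ k` modulo the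
  `π j` and `a` the corresponding character of the absolute Galois group of `K = ℚ(i)`.  Then the
  product `LA` of the `L`-functions of the Hecke characters `ψ χ ^ t`, `t < 2 ^ k`, `t = 1` modulo `4`,
  and of their complex conjugates, which is the `L`-function of `A` over `K`, is entire, its order of
  vanishing at `s = 1` is zero, and `H⁰(K, V_2 A) = 0`, `H¹_f(K, V_2 A) = 0`. -/
theorem result (k : ℕ) (hk : 3 ≤ k) :
    {q : GaussianInt | Good k (fun _ : Fin 1 => q)}.Infinite ∧
    ∀ (m : ℕ) (π : Fin m → GaussianInt), Good k π →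
      ∀ lam : ∀ j, MulChar (GaussianInt ⧸ Ideal.span {π j}) ℂ,
        (∀ j, orderOf (lam j) = 2 ^ k) →
      ∀ ζ : ℂ, ζ ^ (2 ^ (k - 2)) = Complex.I →
        (∃ F : ℕ → ℂ → ℂ, (∀ t, Odd t → IsLFunction lam t (F t)) ∧
          Differentiable ℂ (LA k F) ∧ analyticOrderAt (LA k F) 1 = 0) ∧
        ∀ (i₀ : QBar), i₀ ^ 2 = -1 → ∀ a : GalK i₀ → ZMod (2 ^ k), Corresponds ζ lam a →
          NoInvariants a ∧ SelmerZero a := by
  constructor
  · refine (Pool.Agent.R390.IP.infinite_pi (k + 2) (by omega)).mono ?_
    rintro q ⟨h1, h2, h3, h4⟩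
    exact good_one h1 h2 h3 h4
  intro m π hπ lam hlam ζ hζ
  obtain ⟨⟨F, hF1, hF2, -⟩, halg⟩ := Pool.Agent.Y715.Pf.main k m hk π hπ.prime hπ.inj hπ.four hπ.norm
    hπ.split hπ.odd lam hlam ζ hζ
  refine ⟨⟨F, hF1, LA_diff fun t ht => (hF1 t ht).1, ?_⟩, ?_⟩
  · have hd := LA_diff (k := k) fun t ht => (hF1 t ht).1
    have hζ1 : (1 : ℂ) - ζ ≠ 0 := by
      intro h
      have h1 : ζ = 1 := (sub_eq_zero.1 h).symm
      rw [h1, one_pow] at hζ
      have h2 := congrArg Complex.re hζ
      simp at h2
    have hΩ : (Omega : ℂ) ≠ 0 := by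
      have h3 : (0 : ℝ) < Omega := by
        unfold Omega
        have := Real.Gamma_pos_of_pos (by norm_num : (0 : ℝ) < 1 / 4)
        positivity
      exact_mod_cast h3.ne'
    have hne : LA k F 1 ≠ 0 := LA_ne fun t ht => by
      obtain ⟨u, hu, e⟩ := hF2 t ht
      rw [e]
      exact mul_ne_zero (mul_ne_zero hΩ (pow_ne_zero _ hζ1)) hu.1
    exact (hd.analyticAt 1).analyticOrderAt_eq_zero.2 hne
  · intro i₀ hi a ha
    obtain ⟨⟨T, h, hT, hpts⟩, hsha⟩ := halg i₀ hi a ha
    exact alg_side hi a (by rw [hpts]; exact (Set.finite_singleton _).insert _) hsha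

end Pool.Agent.Results.MP_ec4e4b_nt.CyclotomicComplexMultiplication
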